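import Pool.Agent.TH196.Loew.Defs

/-!
Shared definitions for the counterexample to the Caratheodory conjecture (a smooth sphere with exactly one umbilic).
-/

set_option autoImplicit false
open Complex

namespace Pool.Agent.TH196.Cara

open Pool.Agent.TH196.Loew (QQ)

/-! ### The trigonometric polynomial `p` -/

/-- half of the modes `(j,k,A,B)`: the coefficient of `V^j W^k` in `p` is `(A + B i)/400`;
the other half is obtained by conjugation. -/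
def halfModes : List (ℤ × ℤ × ℤ × ℤ) :=
  [(0, 1, -6264, 0), (0, 2, 1530, 0), (0, 3, -354, 0), (0, 4, 58, 0),
   (1, 1, 75, -98), (1, -1, -75, 98),
   (1, 2, -28, -53), (1, -2, 28, 53),
   (1, 3, 10, 8), (1, -3, -10, -8),
   (1, 4, 34, 8), (1, -4, -34, -8),
   (1, 5, -5, 0), (1, -5, 5, 0),
   (2, 1, -5, 0), (2, -1, -5, 0),
   (2, 2, -7, 2), (2, -2, -7, 2),
   (2, 3, 2, 0), (2, -3, 2, 0),
   (2, 4, 5, -2), (2, -4, 5, -2)]

/-- all modes `(j,k,c)`: `p = ∑ c V^j W^k`. -/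
noncomputable def modes : List (ℤ × ℤ × ℂ) :=
  halfModes.flatMap fun m =>
    [(m.1, m.2.1, ((m.2.2.1 : ℂ) + (m.2.2.2 : ℂ) * I) / 400),
     (-m.1, -m.2.1, ((m.2.2.1 : ℂ) - (m.2.2.2 : ℂ) * I) / 400)]

/-- the trigonometric polynomial `p` -/
noncomputable def pp (V W : ℂ) : ℂ := (modes.map fun m => m.2.2 * V ^ m.1 * W ^ m.2.1).sum

/-- `1 + (∂ + σ)² p` -/
noncomputable def Gs (σ V W : ℂ) : ℂ :=
  1 + (modes.map fun m => m.2.2 * V ^ m.1 * W ^ m.2.1 *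
    ((σ + I * m.1 - m.2.1 * (2 + W + W⁻¹) / 8) ^ 2
      + m.2.1 * (W - W⁻¹) * (2 + W + W⁻¹) / 64)).sum

/-- `δ ω_W` -/
noncomputable def om (e1 e2 W : ℂ) : ℂ :=
  (2 + W + W⁻¹) / 8 + 2 * e1 ^ 2 * (2 - W - W⁻¹) - e2 * (W - W⁻¹) / 2

/-- `δ² 𝔅 ω_W` -/
noncomputable def dom (e1 e2 e4 W : ℂ) : ℂ :=
  e2 * (2 + W + W⁻¹) / 8 - (W - W⁻¹) * om e1 e2 W / 8 - 2 * e1 ^ 2 * e2 * (2 - W - W⁻¹)
    + 2 * e1 ^ 2 * (W - W⁻¹) * om e1 e2 W - e4 * (W - W⁻¹) / 2 + e2 * (W + W⁻¹) * om e1 e2 W / 2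

/-- `δ λ` -/
noncomputable def mu (j k : ℤ) (s e1 e2 W : ℂ) : ℂ := s + I * j - k * om e1 e2 W

/-- `δ² (λ² + 𝔅λ - 2 λ)` -/
noncomputable def AA (j k : ℤ) (s e1 e2 e3 e4 W : ℂ) : ℂ :=
  mu j k s e1 e2 W ^ 2 + (e3 + I * j * e2 - k * dom e1 e2 e4 W) - 2 * e1 * mu j k s e1 e2 W

/-- the full factor -/
noncomputable def GG (s e1 e2 e3 e4 V W : ℂ) : ℂ :=
  1 + (modes.map fun m => m.2.2 * V ^ m.1 * W ^ m.2.1 * AA m.1 m.2.1 s e1 e2 e3 e4 W).sum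

/-! ### The radial functions, `v = |z|²` -/

/-- phase -/
noncomputable def ph (N v : ℝ) : ℝ := N * (v - 1 / (2 * v ^ 2))
/-- `ρ = 2 v ph'(v)` -/
noncomputable def rho (N v : ℝ) : ℝ := 2 * N * (v + 1 / v ^ 2)
/-- the flat weight `M` -/
noncomputable def Mf (N v : ℝ) : ℝ := if v ≤ 0 then 0 else Real.exp (-(1 / v) - N * v / 5)
/-- first antiderivative -/
noncomputable def A1 (N v : ℝ) : ℝ := ∫ s in (0 : ℝ)..v, Mf N s
/-- second antiderivative: `Af'' = Mf` -/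
noncomputable def Af (N v : ℝ) : ℝ := ∫ s in (0 : ℝ)..v, A1 N s
/-- `β = M / ph'²` -/
noncomputable def bet (N v : ℝ) : ℝ := Mf N v * v ^ 6 / (N ^ 2 * (1 + v ^ 3) ^ 2)

/-- the small parameters -/
noncomputable def E1 (N v : ℝ) : ℝ := v ^ 2 / (2 * N * (1 + v ^ 3))
noncomputable def E2 (N v : ℝ) : ℝ := E1 N v * (2 * (v ^ 3 - 2) / (v ^ 3 + 1))
noncomputable def Sg (N v : ℝ) : ℝ := E1 N v * (2 / v - 2 * N * v / 5 + 12 / (1 + v ^ 3))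
noncomputable def E3' (N v : ℝ) : ℝ :=
  E1 N v ^ 2 * (-(4 / v) - 4 * N * v / 5 - 72 * v ^ 3 / (1 + v ^ 3) ^ 2)
noncomputable def E4 (N v : ℝ) : ℝ := E1 N v ^ 2 * (36 * v ^ 3 / (1 + v ^ 3) ^ 2)

/-- `V = exp(i ph)` -/
noncomputable def VV (N v : ℝ) : ℂ := Complex.exp (I * (ph N v : ℂ))

/-- `W = (4x + i ρ y)/(4x - i ρ y)` -/
noncomputable def WW (N : ℝ) (z : ℂ) : ℂ :=
  (4 * (z.re : ℂ) + (rho N (‖z‖ ^ 2) : ℂ) * (z.im : ℂ) * I) /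
    (4 * (z.re : ℂ) - (rho N (‖z‖ ^ 2) : ℂ) * (z.im : ℂ) * I)

/-- soliton part -/
noncomputable def S0 (N : ℝ) (z : ℂ) : ℝ :=
  bet N (‖z‖ ^ 2) * (pp (VV N (‖z‖ ^ 2)) (WW N z)).re

/-- radial part plus soliton part -/
noncomputable def F0 (N : ℝ) (z : ℂ) : ℝ := Af N (‖z‖ ^ 2) + S0 N z

/-- the cap: `cos 2θ`, switched on for `a ≤ |z|² ≤ a + 1` -/
noncomputable def cap (a : ℝ) (z : ℂ) : ℝ :=
  Real.smoothTransition (‖z‖ ^ 2 - a) * ((z.re ^ 2 - z.im ^ 2) / ‖z‖ ^ 2)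

/-- the planar function -/
noncomputable def FF (N a C : ℝ) (z : ℂ) : ℝ := F0 N z - C * cap a z

/-- size of the 2-jet -/
noncomputable def J2 (F : ℂ → ℝ) (z : ℂ) : ℝ :=
  |F z| + ‖fderiv ℝ F z‖ + ‖fderiv ℝ (fderiv ℝ F) z‖

/-! ### Geometry -/

/-- Euclidean 3-space -/
abbrev E3 := EuclideanSpace ℝ (Fin 3)

noncomputable def lam (x : E3) : ℝ := ‖x‖ - x 2
/-- stereographic coordinate -/
noncomputable def zc (x : E3) : ℂ := ((x 0 : ℂ) + (x 1 : ℂ) * I) / (lam x : ℂ)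
/-- the 1-homogeneous function on space defined by a planar function -/
noncomputable def gN (F : ℂ → ℝ) (x : E3) : ℝ := lam x * F (zc x)
/-- derivative of `zc` at `x` in a direction `h ⊥ x` -/
noncomputable def dz (x h : E3) : ℂ :=
  ((h 0 : ℂ) + (h 1 : ℂ) * I) / (lam x : ℂ) + ((x 0 : ℂ) + (x 1 : ℂ) * I) * (h 2 : ℂ) / (lam x : ℂ) ^ 2
/-- the reflection `(x0, -x1, -x2)` -/
noncomputable def refl (x : E3) : E3 := !₂[x 0, -x 1, -x 2]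

/-- the statement of the Caratheodory conjecture, as in S14017 -/
def CaraStmt : Prop := ∀ F : EuclideanSpace ℝ (Fin 3) → ℝ,
    (∀ n : ℕ, ContDiff ℝ n F) →
    IsCompact {x : EuclideanSpace ℝ (Fin 3) | F x = 0} →
    (∀ x : EuclideanSpace ℝ (Fin 3), F x = 0 → fderiv ℝ F x ≠ 0) →
    Nonempty (↥{x : EuclideanSpace ℝ (Fin 3) | F x = 0} ≃ₜ
      ↥(Metric.sphere (0 : EuclideanSpace ℝ (Fin 3)) 1)) →
    ∃ p q : EuclideanSpace ℝ (Fin 3), F p = 0 ∧ F q = 0 ∧ p ≠ q ∧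
      (∃ c : ℝ, ∀ u v : EuclideanSpace ℝ (Fin 3),
        fderiv ℝ F p u = 0 → fderiv ℝ F p v = 0 →
          fderiv ℝ (fderiv ℝ F) p u v = c * inner ℝ u v) ∧
      (∃ c : ℝ, ∀ u v : EuclideanSpace ℝ (Fin 3),
        fderiv ℝ F q u = 0 → fderiv ℝ F q v = 0 →
          fderiv ℝ (fderiv ℝ F) q u v = c * inner ℝ u v)


end Pool.Agent.TH196.Cara
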